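import Pool.Agent.Lib.MP_ea7a64_al_c50.Stmt

set_option autoImplicit false

open Pool.Agent.Lib.MP_ea7a64_al_c50

namespace Pool.Agent.Results.MP_ea7a64_al.FewerThanResidueField

/-- Let `R` be a Noetherian Gorenstein local ring with uncountable residue field `k`. If `R` has
fewer than `|k|` isomorphism classes of indecomposable maximal Cohen-Macaulay modules (for
example only countably many), then `R` is a hypersurface: its embedding dimension is at most
`dim R + 1`. -/
theorem result (R : Type) [CommRing R] [IsNoetherianRing R] [IsLocalRing R]
    (hk : Uncountable (IsLocalRing.ResidueField R)) (hG : IsGorenstein R)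
    (h : Cardinal.mk (MCMClasses R) <
      Cardinal.lift.{1} (Cardinal.mk (IsLocalRing.ResidueField R))) :
    (embDim R : WithBot ℕ∞) ≤ ringKrullDim R + 1 :=
  few_classes R hk hG h

end Pool.Agent.Results.MP_ea7a64_al.FewerThanResidueField
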